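import Pool.Agent.H8.TX.Targets
import Mathlib.FieldTheory.RatFunc.AsPolynomial

/-! Row LDA: degree of an algebraic function of one variable over a field. -/

set_option autoImplicit false

open Pool.Agent.H8.TD (lc dg)
open Pool.Agent.H8.TX

namespace Pool.Agent.H51.TX

open Polynomial

theorem swap_coeff {R : Type} [CommRing R] (p : R[X][X]) (m l : ℕ) :
    ((Bivariate.swap p).coeff m).coeff l = (p.coeff l).coeff m := by
  induction p using Polynomial.induction_on' with
  | add p q hp hq => rw [map_add, coeff_add, coeff_add, hp, hq, coeff_add, coeff_add]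
  | monomial n a =>
    induction a using Polynomial.induction_on' with
    | add p q hp hq => rw [map_add, map_add, coeff_add, coeff_add, hp, hq, coeff_add, coeff_add]
    | monomial k r =>
      rw [Bivariate.swap_monomial_monomial]
      simp only [coeff_monomial]
      split_ifs <;> simp_all [coeff_monomial]

theorem eval_swap {κ C : Type} [Field κ] [Field C] [Algebra κ C] (t ψ : C) (Φ : κ[X][X]) :
    (Bivariate.swap Φ).eval₂ (aeval ψ : κ[X] →ₐ[κ] C).toRingHom t =
      Φ.eval₂ (aeval t : κ[X] →ₐ[κ] C).toRingHom ψ := by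
  induction Φ using Polynomial.induction_on' with
  | add p q hp hq => rw [map_add, eval₂_add, hp, hq, eval₂_add]
  | monomial n a =>
    induction a using Polynomial.induction_on' with
    | add p q hp hq => rw [map_add, map_add, eval₂_add, hp, hq, eval₂_add]
    | monomial k r =>
      rw [Bivariate.swap_monomial_monomial, eval₂_monomial, eval₂_monomial]
      show aeval ψ (monomial n r) * t ^ k = aeval t (monomial k r) * ψ ^ n
      rw [aeval_monomial, aeval_monomial]
      ring

theorem psi_trans {κ C : Type} [Field κ] [Field C] [Algebra κ C] (t ψ : C) (Φ : κ[X][X])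
    (ht : Transcendental κ t) (hi : Irreducible Φ) (hd : 1 ≤ Φ.natDegree)
    (h0 : Φ.eval₂ (aeval ψ : κ[X] →ₐ[κ] C).toRingHom t = 0) : Transcendental κ ψ := by
  intro hψ
  have hint : IsIntegral κ ψ := hψ.isIntegral
  have hE : Algebra.IsAlgebraic κ (IntermediateField.adjoin κ {ψ}) :=
    IntermediateField.isAlgebraic_adjoin_simple hint
  have htE : Transcendental (IntermediateField.adjoin κ {ψ}) t := fun h =>
    ht (h.restrictScalars κ)
  obtain ⟨f, hf⟩ : ∃ f : κ[X] →+* (IntermediateField.adjoin κ {ψ}),
      ∀ g, algebraMap (IntermediateField.adjoin κ {ψ}) C (f g) = aeval ψ g :=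
    ⟨(aeval (IntermediateField.AdjoinSimple.gen κ ψ) : κ[X] →ₐ[κ] _).toRingHom, fun g => by
      show algebraMap _ C (aeval (IntermediateField.AdjoinSimple.gen κ ψ) g) = _
      rw [← aeval_algebraMap_apply, IntermediateField.AdjoinSimple.algebraMap_gen]⟩
  have h1 : Φ.map f = 0 := by
    by_contra hne
    refine htE ⟨Φ.map f, hne, ?_⟩
    rw [aeval_def, eval₂_map]
    have h2 : (algebraMap (IntermediateField.adjoin κ {ψ}) C).comp f =
        (aeval ψ : κ[X] →ₐ[κ] C).toRingHom := RingHom.ext fun g => hf g
    rw [h2]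
    exact h0
  have h2 : ∀ m, minpoly κ ψ ∣ Φ.coeff m := by
    intro m
    refine minpoly.dvd κ ψ ?_
    rw [← hf]
    have h3 : f (Φ.coeff m) = 0 := by
      have h4 := congrArg (fun q => q.coeff m) h1
      simpa [coeff_map] using h4
    rw [h3, map_zero]
  have h3 : Polynomial.C (minpoly κ ψ) ∣ Φ := (C_dvd_iff_dvd_coeff _ _).2 h2
  obtain ⟨q, hq⟩ := h3
  rcases hi.isUnit_or_isUnit hq with h4 | h4
  · exact (minpoly.irreducible hint).not_isUnit (isUnit_C.1 h4)
  · have h5 : q.natDegree = 0 := natDegree_eq_zero_of_isUnit h4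
    have h6 : Φ.natDegree ≤ 0 := by
      rw [hq]
      refine natDegree_mul_le.trans ?_
      rw [natDegree_C, h5]
    omega

theorem fin_big {κ E C : Type} [Field κ] [Field E] [Field C] [Algebra κ C] [Algebra E C]
    (t : C) (hE : ∀ x : κ, ∃ y : E, algebraMap E C y = algebraMap κ C x)
    (hfin : FiniteDimensional (IntermediateField.adjoin κ {t}) C) :
    FiniteDimensional (IntermediateField.adjoin E {t}) C := by
  obtain ⟨L, hL⟩ : ∃ L : Subfield C, L = (IntermediateField.adjoin κ {t}).toSubfield := ⟨_, rfl⟩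
  obtain ⟨M, hM⟩ : ∃ M : Subfield C, M = (IntermediateField.adjoin E {t}).toSubfield := ⟨_, rfl⟩
  have hle : L ≤ M := by
    rw [hL, hM, IntermediateField.adjoin_toSubfield, IntermediateField.adjoin_toSubfield,
      Subfield.closure_le]
    rintro x (⟨y, rfl⟩ | hx)
    · obtain ⟨z, hz⟩ := hE y
      rw [← hz]
      exact Subfield.subset_closure (Or.inl ⟨z, rfl⟩)
    · exact Subfield.subset_closure (Or.inr hx)
  have hfL : Module.Finite L C := by
    subst hL
    exact hfin
  have hfM : Module.Finite M C := by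
    let φ : L →+* M := Subfield.inclusion hle
    let _ : Algebra L M := φ.toAlgebra
    have _ : IsScalarTower L M C := IsScalarTower.of_algebraMap_eq fun x => rfl
    exact Module.Finite.of_restrictScalars_finite L M C
  subst hM
  exact hfM

theorem deg_le {E C : Type} [Field E] [Field C] [Algebra E C] (t : C) (hint : IsIntegral E t)
    (hfin : FiniteDimensional (IntermediateField.adjoin E {t}) C) :
    (minpoly E t).natDegree ≤ Module.finrank E C := by
  have hr := IntermediateField.adjoin.finrank hint
  have hmul := Module.finrank_mul_finrank E (IntermediateField.adjoin E {t}) C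
  have hpos : 0 < Module.finrank (IntermediateField.adjoin E {t}) C := Module.finrank_pos
  rw [← hmul, hr]
  exact Nat.le_mul_of_pos_right _ hpos

theorem pf_LDA : T_LDA := by
  intro κ C _ _ _ t ψ Φ D j ht hfin hirr hD hDj hdeg h0
  have hirr' : Irreducible (Bivariate.swap Φ) :=
    (MulEquiv.irreducible_iff (Bivariate.swap (R := κ)).toMulEquiv).2 hirr
  have hnd : D ≤ (Bivariate.swap Φ).natDegree := by
    refine hDj.trans (le_natDegree_of_ne_zero fun h => ?_)
    have h1 := swap_coeff Φ (Φ.coeff j).natDegree j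
    rw [h, coeff_zero] at h1
    have h2 : Φ.coeff j ≠ 0 := by
      intro h3
      rw [h3, natDegree_zero] at hDj
      omega
    exact h2 (leadingCoeff_eq_zero.1 h1.symm)
  have h0' := eval_swap t ψ Φ
  rw [h0] at h0'
  set Φ' := Bivariate.swap Φ with hΦ'
  have hψ : Transcendental κ ψ := psi_trans t ψ Φ' ht hirr' (by omega) h0'
  have hprim : Φ'.IsPrimitive := hirr'.isPrimitive (by omega)
  have h1 : Irreducible (Φ'.map (algebraMap κ[X] (RatFunc κ))) :=
    hprim.irreducible_iff_irreducible_map_fraction_map.1 hirr'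
  let e : RatFunc κ ≃ₐ[κ] IntermediateField.adjoin κ {ψ} :=
    RatFunc.algEquivOfTranscendental ψ hψ
  have h2 : Irreducible ((Φ'.map (algebraMap κ[X] (RatFunc κ))).map e.toRingEquiv.toRingHom) := by
    have h3 := (MulEquiv.irreducible_iff (Polynomial.mapEquiv e.toRingEquiv).toMulEquiv).2 h1
    exact h3
  set Ψ := (Φ'.map (algebraMap κ[X] (RatFunc κ))).map e.toRingEquiv.toRingHom with hΨ
  have h4 : aeval t Ψ = 0 := by
    rw [hΨ, aeval_def, eval₂_map, eval₂_map]
    have h5 : ((algebraMap (IntermediateField.adjoin κ {ψ}) C).comp e.toRingEquiv.toRingHom).comp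
        (algebraMap κ[X] (RatFunc κ)) = (aeval ψ : κ[X] →ₐ[κ] C).toRingHom := by
      refine RingHom.ext fun g => ?_
      show algebraMap (IntermediateField.adjoin κ {ψ}) C (e (algebraMap κ[X] (RatFunc κ) g)) =
        aeval ψ g
      have h6 : e (algebraMap κ[X] (RatFunc κ) g) = aeval (IntermediateField.AdjoinSimple.gen κ ψ) g :=
        RatFunc.algEquivOfTranscendental_algebraMap ψ hψ g
      rw [h6, ← aeval_algebraMap_apply, IntermediateField.AdjoinSimple.algebraMap_gen]
    rw [h5]
    exact h0'
  have hdΨ : Ψ.natDegree = Φ'.natDegree := by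
    rw [hΨ, natDegree_map_eq_of_injective (RingEquiv.injective _),
      natDegree_map_eq_of_injective (IsFractionRing.injective κ[X] (RatFunc κ))]
  have hmin := minpoly.eq_of_irreducible h2 h4
  have hΨ0 : Ψ ≠ 0 := h2.ne_zero
  have hint : IsIntegral (IntermediateField.adjoin κ {ψ}) t :=
    isAlgebraic_iff_isIntegral.1 ⟨Ψ, hΨ0, h4⟩
  have hmd : (minpoly (IntermediateField.adjoin κ {ψ}) t).natDegree = Φ'.natDegree := by
    rw [← hmin, ← hdΨ]
    exact natDegree_mul_C (inv_ne_zero (leadingCoeff_ne_zero.2 hΨ0))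
  have hfin' : FiniteDimensional (IntermediateField.adjoin (IntermediateField.adjoin κ {ψ}) {t}) C :=
    fin_big t (fun x => ⟨algebraMap κ _ x, rfl⟩) hfin
  show D ≤ Module.finrank (IntermediateField.adjoin κ {ψ}) C
  refine hnd.trans ?_
  rw [← hmd]
  exact deg_le t hint hfin'

end Pool.Agent.H51.TX
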